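import Mathlib

open MeasureTheory Set Filter Topology

namespace Pool.Agent.Results.MP_44d257_an.MatherUniqueness

/-- `ℝ^n`; functions on the torus `𝕋^n = ℝ^n/ℤ^n` are `ℤ^n`-periodic functions on `ℝ^n`. -/
abbrev E (n : ℕ) : Type := EuclideanSpace ℝ (Fin n)

/-- the integer vector `k` as an element of `ℝ^n` -/
noncomputable def iv {n : ℕ} (k : Fin n → ℤ) : E n := WithLp.toLp 2 (fun i => (k i : ℝ))

/-- `ℤ^n`-periodic functions -/
def Per {n : ℕ} {α : Type} (f : E n → α) : Prop := ∀ (k : Fin n → ℤ) (x : E n), f (x + iv k) = f x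

variable {n : ℕ}

/-- `H ∈ C^2(𝕋^n × ℝ^n)` -/
def IsHam (H : E n → E n → ℝ) : Prop :=
  ContDiff ℝ 2 (fun z : E n × E n => H z.1 z.2) ∧ ∀ p, Per (fun x => H x p)

/-- `D_p H(x,p) · q` -/
noncomputable def DpH (H : E n → E n → ℝ) (x p q : E n) : ℝ := fderiv ℝ (fun p' => H x p') p q

/-- `D_x H(x,p) · q` -/
noncomputable def DxH (H : E n → E n → ℝ) (x p q : E n) : ℝ := fderiv ℝ (fun x' => H x' p) x q

/-- hypothesis (A1) -/
def A1 (H : E n → E n → ℝ) : Prop :=
  ∀ M : ℝ, ∃ R : ℝ, ∀ x p : E n, R ≤ ‖p‖ → M ≤ H x p ^ 2 / 2 + DxH H x p p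

/-- hypothesis (A2) -/
def A2 (H : E n → E n → ℝ) : Prop :=
  ∃ θ : ℝ, 0 < θ ∧ ∀ x p : E n, (θ + 1) * H x p ≤ DpH H x p p

/-- `v` is a continuous viscosity solution of `H(x,Dv(x)) = 0` in `𝕋^n` -/
def IsSol (H : E n → E n → ℝ) (v : E n → ℝ) : Prop :=
  Continuous v ∧ Per v ∧
  (∀ φ : E n → ℝ, ContDiff ℝ 1 φ → ∀ x, IsLocalMax (fun y => v y - φ y) x →
    H x (gradient φ x) ≤ 0) ∧
  (∀ φ : E n → ℝ, ContDiff ℝ 1 φ → ∀ x, IsLocalMin (fun y => v y - φ y) x →
    0 ≤ H x (gradient φ x))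

/-- `μ` is (a lift to `ℝ^n × ℝ^n` of) a Mather measure; here `H̄(0) = 0` -/
def IsMather (H : E n → E n → ℝ) (μ : Measure (E n × E n)) : Prop :=
  IsProbabilityMeasure μ ∧
  (∀ᵐ z ∂μ, H z.1 z.2 = 0) ∧
  (Integrable (fun z : E n × E n => DpH H z.1 z.2 z.2) μ ∧ ∫ z, DpH H z.1 z.2 z.2 ∂μ = 0) ∧
  ∀ φ : E n → ℝ, ContDiff ℝ 2 φ → Per φ →
    Integrable (fun z : E n × E n => DpH H z.1 z.2 (gradient φ z.1)) μ ∧
    ∫ z, DpH H z.1 z.2 (gradient φ z.1) ∂μ = 0

/-- the projected Mather set `𝓜₀` (as a periodic subset of `ℝ^n`) -/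
def projMather (H : E n → E n → ℝ) : Set (E n) :=
  closure {x | ∃ μ : Measure (E n × E n), IsMather H μ ∧
    ∃ (k : Fin n → ℤ) (p : E n), (x + iv k, p) ∈ μ.support}

/-- `K` is a uniqueness set for the cell problem `H(x,Dv(x)) = 0` -/
def IsUniquenessSet (H : E n → E n → ℝ) (K : Set (E n)) : Prop :=
  ∀ v w : E n → ℝ, IsSol H v → IsSol H w → (∀ x ∈ K, v x = w x) → v = w

/-! ### the cube and recurrence -/

/-- the unit cube -/
def cube (n : ℕ) : Set (E n) := {x | ∀ i, x i ∈ Icc (0 : ℝ) 1}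

lemma cube_compact : IsCompact (cube n) := by
  have h1 : IsCompact (Set.pi univ fun _ : Fin n => Icc (0 : ℝ) 1) :=
    isCompact_univ_pi fun _ => isCompact_Icc
  have h2 : cube n = (WithLp.toLp 2) '' (Set.pi univ fun _ : Fin n => Icc (0 : ℝ) 1) := by
    ext x
    constructor
    · intro hx
      exact ⟨fun i => x i, fun i _ => hx i, rfl⟩
    · rintro ⟨y, hy, rfl⟩ i
      exact hy i trivial
  rw [h2]
  exact h1.image (PiLp.continuous_toLp 2 _)

lemma to_cube (x : E n) : ∃ k : Fin n → ℤ, x + iv k ∈ cube n := by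
  refine ⟨fun i => -⌊x i⌋, fun i => ?_⟩
  have : (x + iv fun i => -⌊x i⌋) i = Int.fract (x i) := by
    show x i + ((-⌊x i⌋ : ℤ) : ℝ) = x i - ⌊x i⌋
    push_cast
    ring
  rw [this]
  exact ⟨Int.fract_nonneg _, (Int.fract_lt_one _).le⟩

lemma iv_add (k l : Fin n → ℤ) : iv (k + l) = iv k + iv l := by
  ext i
  simp [iv]

lemma iv_neg (k : Fin n → ℤ) : iv (-k) = -iv k := by
  ext i
  simp [iv]

lemma iv_sub (k l : Fin n → ℤ) : iv (k - l) = iv k - iv l := by
  rw [sub_eq_add_neg, iv_add, iv_neg, ← sub_eq_add_neg]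

lemma recur (p : E n) {ε : ℝ} (hε : 0 < ε) (T : ℝ) :
    ∃ (t : ℝ) (k : Fin n → ℤ), T ≤ t ∧ ‖t • p - iv k‖ < ε := by
  obtain ⟨N, hN⟩ := exists_nat_ge (max T 1)
  have hN1 : (1 : ℝ) ≤ N := (le_max_right _ _).trans hN
  have hNT : T ≤ N := (le_max_left _ _).trans hN
  choose k hk using fun j : ℕ => to_cube (((j : ℝ) * N) • p)
  obtain ⟨a, -, s, hs, hlim⟩ := cube_compact.tendsto_subseq hk
  have hc := hlim.cauchySeq
  rw [Metric.cauchySeq_iff] at hc
  obtain ⟨M, hM⟩ := hc ε hε
  have h1 := hM (M + 1) (by omega) M le_rfl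
  simp only [Function.comp_apply] at h1
  rw [dist_eq_norm] at h1
  have hlt : s M < s (M + 1) := hs (by omega)
  have hlt' : (s M : ℝ) + 1 ≤ s (M + 1) := by exact_mod_cast hlt
  refine ⟨((s (M + 1) : ℝ) - s M) * N, k (s M) - k (s (M + 1)), ?_, ?_⟩
  · nlinarith
  · have e : (((s (M + 1) : ℝ) - s M) * N) • p - iv (k (s M) - k (s (M + 1)))
        = ((s (M + 1) : ℝ) * N) • p + iv (k (s (M + 1)))
          - (((s M : ℝ) * N) • p + iv (k (s M))) := by
      rw [iv_sub, sub_mul, sub_smul]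
      abel
    rw [e]
    exact h1

section ham
variable {H : E n → E n → ℝ}

lemma ham_cont (hH : IsHam H) : Continuous (fun z : E n × E n => H z.1 z.2) := hH.1.continuous

lemma diff_x (hH : IsHam H) (p : E n) : Differentiable ℝ (fun x => H x p) := by
  have h1 : Differentiable ℝ (fun z : E n × E n => H z.1 z.2) := hH.1.differentiable (by norm_num)
  exact h1.comp (differentiable_id.prodMk (differentiable_const p))

lemma diff_p (hH : IsHam H) (x : E n) : Differentiable ℝ (fun p => H x p) := by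
  have h1 : Differentiable ℝ (fun z : E n × E n => H z.1 z.2) := hH.1.differentiable (by norm_num)
  exact h1.comp ((differentiable_const x).prodMk differentiable_id)

lemma DpH_eq (hH : IsHam H) (x p q : E n) :
    DpH H x p q = fderiv ℝ (fun z : E n × E n => H z.1 z.2) (x, p) (0, q) := by
  have h1 : Differentiable ℝ (fun z : E n × E n => H z.1 z.2) := hH.1.differentiable (by norm_num)
  have h2 : HasFDerivAt (fun p' : E n => (x, p')) (ContinuousLinearMap.inr ℝ (E n) (E n)) p := by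
    exact hasFDerivAt_prodMk_right x p
  have h3 := (h1 (x, p)).hasFDerivAt.comp p h2
  have h4 : HasFDerivAt (fun p' => H x p') _ p := h3
  unfold DpH
  rw [h4.fderiv]
  rfl

lemma DpH_cont (hH : IsHam H) : Continuous (fun z : (E n × E n) × E n => DpH H z.1.1 z.1.2 z.2) := by
  have h1 : Continuous (fderiv ℝ (fun z : E n × E n => H z.1 z.2)) :=
    hH.1.continuous_fderiv (by norm_num)
  have h2 : (fun z : (E n × E n) × E n => DpH H z.1.1 z.1.2 z.2)
      = fun z => fderiv ℝ (fun z : E n × E n => H z.1 z.2) z.1 (0, z.2) := by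
    funext z
    exact DpH_eq hH _ _ _
  rw [h2]
  exact (h1.comp continuous_fst).clm_apply (continuous_const.prodMk continuous_snd)

/-- derivative along a line in `x` -/
lemma line_x (hH : IsHam H) (x p q : E n) (t : ℝ) :
    HasDerivAt (fun t : ℝ => H (x + t • q) p) (DxH H (x + t • q) p q) t := by
  have h1 := (diff_x hH p (x + t • q)).hasFDerivAt
  have h2 : HasDerivAt (fun t : ℝ => x + t • q) q t := by
    simpa using ((hasDerivAt_id t).smul_const q).const_add x
  exact h1.comp_hasDerivAt t h2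

/-- derivative along a line in `p` -/
lemma line_p (hH : IsHam H) (x p q : E n) (t : ℝ) :
    HasDerivAt (fun t : ℝ => H x (p + t • q)) (DpH H x (p + t • q) q) t := by
  have h1 := (diff_p hH x (p + t • q)).hasFDerivAt
  have h2 : HasDerivAt (fun t : ℝ => p + t • q) q t := by
    simpa using ((hasDerivAt_id t).smul_const q).const_add p
  exact h1.comp_hasDerivAt t h2

/-- for large `|p|` the function `H(·,p)` has no zeros -/
lemma no_zero (hH : IsHam H) (h1 : A1 H) :
    ∃ R : ℝ, 0 < R ∧ ∀ x p : E n, R ≤ ‖p‖ → H x p ≠ 0 := by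
  obtain ⟨R, hR⟩ := h1 1
  refine ⟨max R 1, lt_of_lt_of_le one_pos (le_max_right _ _), fun x p hp h0 => ?_⟩
  have hp' : R ≤ ‖p‖ := (le_max_left _ _).trans hp
  obtain ⟨f, hf⟩ : ∃ f : ℝ → ℝ, f = fun t => H (x + t • p) p := ⟨_, rfl⟩
  have hd : ∀ t, HasDerivAt f (DxH H (x + t • p) p p) t := by
    intro t
    rw [hf]
    exact line_x hH x p p t
  have hz : ∀ t, f t = 0 → 1 ≤ DxH H (x + t • p) p p := by
    intro t ht
    have h2 := hR (x + t • p) p hp'
    have h3 : H (x + t • p) p = 0 := by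
      rw [hf] at ht
      exact ht
    rw [h3] at h2
    linarith
  have f0 : f 0 = 0 := by
    rw [hf]
    simpa using h0
  have hcont : Continuous f := continuous_iff_continuousAt.2 fun t => (hd t).continuousAt
  -- `f ≥ 0` on `[0,∞)`
  have hpos : ∀ t, 0 ≤ t → 0 ≤ f t := by
    intro t ht
    have h4 := image_le_of_deriv_right_lt_deriv_boundary (f := fun s => -f s)
      (f' := fun s => -(DxH H (x + s • p) p p)) (a := 0) (b := t) (B := fun _ => 0)
      (B' := fun _ => 0) hcont.neg.continuousOn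
      (fun s _ => (hd s).neg.hasDerivWithinAt) (by simp [f0]) (fun s => hasDerivAt_const s 0)
      (fun s _ hs => by
        have := hz s (by linarith)
        linarith) (⟨ht, le_rfl⟩ : t ∈ Icc 0 t)
    simpa using h4
  -- `f < 0` somewhere to the left
  have hneg : ∃ s > 0, f (-s) < 0 := by
    have hd0 : HasDerivAt f (DxH H (x + (0 : ℝ) • p) p p) 0 := hd 0
    have hd1 := hz 0 f0
    have h5 : HasDerivAt (fun s => f (-s)) (-(DxH H (x + (0 : ℝ) • p) p p)) 0 := by
      have h6 : HasDerivAt (fun s : ℝ => -s) (-1) 0 := hasDerivAt_neg 0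
      have h7 := HasDerivAt.comp (0 : ℝ) (h₂ := f) (h := fun s : ℝ => -s)
        (by simpa using hd0) h6
      simpa [Function.comp_def] using h7
    have h8 := h5.tendsto_slope_zero_right
    have h9 : ∀ᶠ s in 𝓝[>] (0 : ℝ), s⁻¹ • (f (-(0 + s)) - f (-0)) < 0 :=
      h8.eventually_lt_const (by linarith)
    obtain ⟨s, hs1, hs2⟩ := (h9.and self_mem_nhdsWithin).exists
    have hs2' : (0 : ℝ) < s := hs2
    refine ⟨s, hs2', ?_⟩
    simp only [zero_add, neg_zero, f0, sub_zero, smul_eq_mul] at hs1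
    by_contra hcon
    push Not at hcon
    have : 0 ≤ s⁻¹ * f (-s) := by positivity
    linarith
  obtain ⟨s, hs, hfs⟩ := hneg
  -- recurrence
  have hc2 : ContinuousAt (fun y => H (x + (-s) • p + y) p) 0 := by
    have : Continuous (fun y => H (x + (-s) • p + y) p) :=
      (ham_cont hH).comp ((continuous_const.add continuous_id).prodMk continuous_const)
    exact this.continuousAt
  have h10 : ∀ᶠ y in 𝓝 (0 : E n), H (x + (-s) • p + y) p < 0 := by
    refine hc2.eventually_lt continuousAt_const ?_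
    rw [add_zero]
    rw [hf] at hfs
    exact hfs
  obtain ⟨ε, hε, hb⟩ := Metric.eventually_nhds_iff.1 h10
  obtain ⟨t, k, ht, htk⟩ := recur p hε s
  have h11 := hb (y := t • p - iv k) (by rwa [dist_zero_right])
  have h12 : H (x + (-s) • p + (t • p - iv k)) p = f (t - s) := by
    have e : x + (-s) • p + (t • p - iv k) = (x + (t - s) • p) + iv (-k) := by
      rw [iv_neg, sub_smul, neg_smul]
      abel
    rw [e, hf]
    exact hH.2 p (-k) _
  rw [h12] at h11
  have := hpos (t - s) (by linarith)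
  linarith

/-- scaling: `H(x,q) ≤ 0` (`< 0`) implies `H(x,λq) ≤ 0` (`< 0`) for `0 < λ ≤ 1` -/
lemma scale (hH : IsHam H) (h2 : A2 H) (x q : E n) {l : ℝ} (hl : 0 < l) (hl1 : l ≤ 1) :
    ∃ c : ℝ, 0 < c ∧ H x (l • q) ≤ c * H x q := by
  obtain ⟨θ, hθ, h2⟩ := h2
  have hder : ∀ r : ℝ, 0 < r → HasDerivAt (fun r : ℝ => r ^ (-(θ + 1)) * H x (r • q))
      ((-(θ + 1)) * r ^ (-(θ + 1) - 1) * H x (r • q) + r ^ (-(θ + 1)) * DpH H x (r • q) q) r := by
    intro r hr
    have e1 : HasDerivAt (fun r : ℝ => r ^ (-(θ + 1))) ((-(θ + 1)) * r ^ (-(θ + 1) - 1)) r :=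
      Real.hasDerivAt_rpow_const (Or.inl hr.ne')
    have e2 := line_p hH x 0 q r
    simp only [zero_add] at e2
    exact e1.mul e2
  have hnn : ∀ r : ℝ, 0 < r → 0 ≤ (-(θ + 1)) * r ^ (-(θ + 1) - 1) * H x (r • q)
      + r ^ (-(θ + 1)) * DpH H x (r • q) q := by
    intro r hr
    have e3 := h2 x (r • q)
    have e4 : DpH H x (r • q) (r • q) = r * DpH H x (r • q) q := by
      unfold DpH
      rw [map_smul, smul_eq_mul]
    rw [e4] at e3
    have e5 : r ^ (-(θ + 1)) = r ^ (-(θ + 1) - 1) * r := by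
      rw [← Real.rpow_add_one hr.ne']
      congr 1
      ring
    rw [e5]
    have e6 : 0 < r ^ (-(θ + 1) - 1) := Real.rpow_pos_of_pos hr _
    have e7 : (-(θ + 1)) * r ^ (-(θ + 1) - 1) * H x (r • q)
      + r ^ (-(θ + 1) - 1) * r * DpH H x (r • q) q
      = r ^ (-(θ + 1) - 1) * (r * DpH H x (r • q) q - (θ + 1) * H x (r • q)) := by ring
    rw [e7]
    exact mul_nonneg e6.le (by linarith)
  have hmono : MonotoneOn (fun r : ℝ => r ^ (-(θ + 1)) * H x (r • q)) (Ioi 0) := by
    refine monotoneOn_of_deriv_nonneg (convex_Ioi 0)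
      (fun r hr => (hder r hr).continuousAt.continuousWithinAt) ?_ ?_
    · intro r hr
      rw [interior_Ioi] at hr
      exact (hder r hr).differentiableAt.differentiableWithinAt
    · intro r hr
      rw [interior_Ioi] at hr
      rw [(hder r hr).deriv]
      exact hnn r hr
  have h3 := hmono (show l ∈ Ioi (0 : ℝ) from hl) (show (0 : ℝ) < 1 from one_pos) hl1
  simp only [Real.one_rpow, one_mul, one_smul] at h3
  refine ⟨l ^ (θ + 1), Real.rpow_pos_of_pos hl _, ?_⟩
  have h4 : l ^ (θ + 1) * l ^ (-(θ + 1)) = 1 := by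
    rw [← Real.rpow_add hl]
    simp
  calc H x (l • q) = l ^ (θ + 1) * (l ^ (-(θ + 1)) * H x (l • q)) := by
        rw [← mul_assoc, h4, one_mul]
    _ ≤ l ^ (θ + 1) * H x q := by
        have := Real.rpow_pos_of_pos hl (θ + 1)
        gcongr

lemma scale_nonpos (hH : IsHam H) (h2 : A2 H) {x q : E n} {l : ℝ} (hl : 0 < l) (hl1 : l ≤ 1)
    (h : H x q ≤ 0) : H x (l • q) ≤ 0 := by
  obtain ⟨c, hc, h3⟩ := scale hH h2 x q hl hl1
  nlinarith

lemma scale_neg (hH : IsHam H) (h2 : A2 H) {x q : E n} {l : ℝ} (hl : 0 < l) (hl1 : l ≤ 1)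
    (h : H x q < 0) : H x (l • q) < 0 := by
  obtain ⟨c, hc, h3⟩ := scale hH h2 x q hl hl1
  have : c * H x q < 0 := mul_neg_of_pos_of_neg hc h
  linarith

lemma H0_nonpos (h2 : A2 H) (x : E n) : H x 0 ≤ 0 := by
  obtain ⟨θ, hθ, h2⟩ := h2
  have h3 := h2 x 0
  have h4 : DpH H x 0 0 = 0 := by
    unfold DpH
    exact map_zero _
  rw [h4] at h3
  nlinarith

/-- if `H(x,0) = 0` then `D_p H(x,0) = 0` -/
lemma Dp_zero (hH : IsHam H) (h2 : A2 H) {x : E n} (h0 : H x 0 = 0) (q : E n) :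
    DpH H x 0 q = 0 := by
  obtain ⟨θ, hθ, h2⟩ := h2
  have key : ∀ q : E n, DpH H x 0 q ≤ 0 := by
    intro q
    have e1 := line_p hH x 0 q 0
    simp only [zero_add, zero_smul] at e1
    have e2 := e1.tendsto_slope_zero_right
    simp only [zero_add, zero_smul, h0, sub_zero, smul_eq_mul] at e2
    have e3 : Tendsto (fun t : ℝ => DpH H x (t • q) q) (𝓝[>] 0) (𝓝 (DpH H x 0 q)) := by
      have c1 : Continuous (fun t : ℝ => DpH H x (t • q) q) :=
        (DpH_cont hH).comp ((continuous_const.prodMk (continuous_id.smul continuous_const)).prodMk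
          continuous_const)
      have c2 := c1.tendsto 0
      rw [zero_smul] at c2
      exact c2.mono_left nhdsWithin_le_nhds
    have e4 : ∀ᶠ t in 𝓝[>] (0 : ℝ), (θ + 1) * (t⁻¹ * H x (t • q)) ≤ DpH H x (t • q) q := by
      filter_upwards [self_mem_nhdsWithin] with t ht
      have ht' : (0 : ℝ) < t := ht
      have e5 := h2 x (t • q)
      have e6 : DpH H x (t • q) (t • q) = t * DpH H x (t • q) q := by
        unfold DpH
        rw [map_smul, smul_eq_mul]
      rw [e6] at e5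
      have e7 : (θ + 1) * (t⁻¹ * H x (t • q)) = t⁻¹ * ((θ + 1) * H x (t • q)) := by ring
      rw [e7, inv_mul_le_iff₀ ht']
      exact e5
    have e8 := le_of_tendsto_of_tendsto (e2.const_mul (θ + 1)) e3 e4
    nlinarith
  refine le_antisymm (key q) ?_
  have h3 := key (-q)
  have h4 : DpH H x 0 (-q) = -DpH H x 0 q := by
    unfold DpH
    exact map_neg _ _
  rw [h4] at h3
  linarith

/-- if `H(x,0) = 0` then `x` is in the projected Mather set -/
lemma zero_mem (hH : IsHam H) (h2 : A2 H) {x : E n} (h0 : H x 0 = 0) : x ∈ projMather H := by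
  refine subset_closure ⟨Measure.dirac (x, 0), ⟨inferInstance, ?_, ⟨?_, ?_⟩, ?_⟩, 0, 0, ?_⟩
  · rw [ae_dirac_eq]
    exact h0
  · exact integrable_dirac (by simp)
  · rw [integral_dirac]
    exact Dp_zero hH h2 h0 _
  · intro φ _ _
    refine ⟨integrable_dirac (by simp), ?_⟩
    rw [integral_dirac]
    exact Dp_zero hH h2 h0 _
  · have e : x + iv (0 : Fin n → ℤ) = x := by
      ext i
      simp [iv]
    rw [e, Measure.mem_support_iff_forall]
    intro U hU
    rw [Measure.dirac_apply_of_mem (mem_of_mem_nhds hU)]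
    exact one_pos

lemma cube_nonempty : (cube n).Nonempty := by
  obtain ⟨k, hk⟩ := to_cube (0 : E n)
  exact ⟨_, hk⟩

lemma per_bdd {v : E n → ℝ} (hc : Continuous v) (hp : Per v) : ∃ B : ℝ, 0 ≤ B ∧ ∀ x, |v x| ≤ B := by
  obtain ⟨B, hB⟩ := cube_compact.exists_bound_of_continuousOn (f := v) hc.continuousOn
  refine ⟨|B|, abs_nonneg _, fun x => ?_⟩
  obtain ⟨k, hk⟩ := to_cube x
  rw [← hp k x]
  exact (hB _ hk).trans (le_abs_self _)

lemma per_max {v : E n → ℝ} (hc : Continuous v) (hp : Per v) : ∃ a ∈ cube n, ∀ x, v x ≤ v a := by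
  obtain ⟨a, ha, hmax⟩ := cube_compact.exists_isMaxOn cube_nonempty hc.continuousOn
  refine ⟨a, ha, fun x => ?_⟩
  obtain ⟨k, hk⟩ := to_cube x
  rw [← hp k x]
  exact hmax hk

lemma grad_quad (a z : E n) (K : ℝ) :
    gradient (fun y : E n => K * ‖y - a‖ ^ 2) z = (2 * K) • (z - a) := by
  refine HasGradientAt.gradient ?_
  rw [hasGradientAt_iff_hasFDerivAt]
  have h1 : HasFDerivAt (fun y : E n => y - a) (ContinuousLinearMap.id ℝ (E n)) z :=
    (hasFDerivAt_id z).sub_const a
  have h2 := (h1.norm_sq).const_mul K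
  refine h2.congr_fderiv ?_
  ext w
  simp
  ring

lemma cd_quad (a : E n) (K : ℝ) : ContDiff ℝ 1 (fun y : E n => K * ‖y - a‖ ^ 2) :=
  contDiff_const.mul ((contDiff_id.sub contDiff_const).norm_sq ℝ)

lemma const_sol {v : E n → ℝ} (h2 : A2 H) (hv : IsSol H v)
    (hneg : ∀ x p : E n, p ≠ 0 → H x p < 0) (x : E n) : H x 0 = 0 := by
  obtain ⟨hc, hp, -, hsup⟩ := hv
  obtain ⟨a, -, ha⟩ := per_max hc hp
  obtain ⟨B, hB0, hB⟩ := per_bdd hc hp
  have hK : ∀ K : ℝ, 0 < K → ∀ z, v a ≤ v z + K * ‖z - a‖ ^ 2 := by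
    intro K hK z
    have hcont : Continuous (fun z => v z + K * ‖z - a‖ ^ 2) := by fun_prop
    have hcoc : ∀ᶠ z in cocompact (E n), v a + K * ‖a - a‖ ^ 2 ≤ v z + K * ‖z - a‖ ^ 2 := by
      have t1 : Tendsto (fun z : E n => ‖z - a‖) (cocompact (E n)) atTop := by
        refine tendsto_atTop_mono (fun z => norm_sub_norm_le z a) ?_
        exact tendsto_atTop_add_const_right _ (-‖a‖) (tendsto_norm_cocompact_atTop (E := E n))
      have t2 := t1.eventually_ge_atTop (1 + 2 * B / K)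
      filter_upwards [t2] with z hz
      have e1 : 0 ≤ 2 * B / K := by positivity
      have e2 : 2 * B / K ≤ ‖z - a‖ ^ 2 := by nlinarith
      rw [div_le_iff₀ hK] at e2
      have e3 := abs_le.1 (hB z)
      have e4 := abs_le.1 (hB a)
      rw [sub_self, norm_zero]
      nlinarith
    obtain ⟨z0, hz0⟩ := hcont.exists_forall_le' a hcoc
    have hloc : IsLocalMin (fun y => v y - (-K) * ‖y - a‖ ^ 2) z0 := by
      refine Eventually.of_forall fun y => ?_
      have := hz0 y
      linarith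
    have h3 := hsup _ (cd_quad a (-K)) z0 hloc
    rw [grad_quad] at h3
    have h4 : (2 * -K) • (z0 - a) = 0 := by
      by_contra hcon
      have := hneg z0 _ hcon
      linarith
    have h5 : z0 = a := by
      rw [smul_eq_zero] at h4
      rcases h4 with h4 | h4
      · linarith
      · exact sub_eq_zero.1 h4
    have h6 := hz0 z
    rw [h5] at h6
    simpa using h6
  have hconst : ∀ z, v z = v a := by
    intro z
    refine le_antisymm (ha z) ?_
    refine le_of_forall_pos_le_add fun ε hε => ?_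
    have h3 := hK (ε / (‖z - a‖ ^ 2 + 1)) (by positivity) z
    have h4 : ε / (‖z - a‖ ^ 2 + 1) * ‖z - a‖ ^ 2 ≤ ε := by
      rw [div_mul_eq_mul_div, div_le_iff₀ (by positivity)]
      nlinarith [sq_nonneg ‖z - a‖]
    linarith
  refine le_antisymm (H0_nonpos h2 x) ?_
  have h3 := hsup (fun _ => 0) contDiff_const x (by
    refine Eventually.of_forall fun y => ?_
    simp [hconst])
  have h4 : gradient (fun _ : E n => (0 : ℝ)) x = 0 := by
    refine HasGradientAt.gradient ?_
    rw [hasGradientAt_iff_hasFDerivAt, map_zero]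
    exact hasFDerivAt_const 0 x
  rwa [h4] at h3

/-- the one-dimensional case -/
lemma const_sol_one {v : E n → ℝ} (hn : n = 1) (h2 : A2 H) (hv : IsSol H v) {p0 : E n}
    (hp0 : p0 ≠ 0) (hneg : ∀ (x : E n) (r : ℝ), 0 < r → H x (r • p0) < 0) (x : E n) :
    H x 0 = 0 := by
  obtain ⟨hc, hp, -, hsup⟩ := hv
  obtain ⟨B, hB0, hB⟩ := per_bdd hc hp
  have hfr : Module.finrank ℝ (E n) = 1 := by rw [finrank_euclideanSpace_fin, hn]
  have hnp : 0 < ‖p0‖ ^ 2 := by positivity
  obtain ⟨l, hl⟩ : ∃ l : E n → ℝ, l = fun z => inner ℝ p0 z / ‖p0‖ ^ 2 := ⟨_, rfl⟩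
  have hlp : ∀ t : ℝ, l (t • p0) = t := by
    intro t
    rw [hl]
    simp only [inner_smul_right, real_inner_self_eq_norm_sq]
    field_simp
  have hspan : ∀ z : E n, (l z) • p0 = z := by
    intro z
    obtain ⟨c, hc⟩ := exists_smul_eq_of_finrank_eq_one hfr hp0 z
    rw [← hc, hlp]
  have hlc : Continuous l := by
    rw [hl]
    fun_prop
  obtain ⟨V, hV⟩ : ∃ V : ℝ → ℝ, V = fun t => v (t • p0) := ⟨_, rfl⟩
  have hVc : Continuous V := by rw [hV]; fun_prop
  have hVB : ∀ t, |V t| ≤ B := fun t => by rw [hV]; exact hB _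
  have hanti : ∀ a b : ℝ, a < b → V b ≤ V a := by
    intro a b hab
    by_contra hcon
    push Not at hcon
    obtain ⟨s, hs⟩ : ∃ s : ℝ, s = (V b - V a) / (2 * (b - a)) := ⟨_, rfl⟩
    have hs0 : 0 < s := by
      rw [hs]
      exact div_pos (by linarith) (by linarith)
    have hsab : s * (b - a) = (V b - V a) / 2 := by
      rw [hs]
      have : b - a ≠ 0 := by linarith
      field_simp
    obtain ⟨c, hcdef⟩ : ∃ c : ℝ, c = min a (b - (2 * B + 1) / s) := ⟨_, rfl⟩
    have hca : c ≤ a := by rw [hcdef]; exact min_le_left _ _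
    have hcb : c ≤ b - (2 * B + 1) / s := by rw [hcdef]; exact min_le_right _ _
    have hcs : 2 * B + 1 ≤ s * (b - c) := by
      have : (2 * B + 1) / s ≤ b - c := by linarith
      rw [div_le_iff₀ hs0] at this
      linarith
    obtain ⟨t, ht, hmin⟩ := (isCompact_Icc (a := c) (b := b)).exists_isMinOn
      ⟨a, hca, hab.le⟩ (f := fun t => V t - s * (t - b)) (by fun_prop)
    have m1 : V t - s * (t - b) ≤ V a - s * (a - b) := hmin ⟨hca, hab.le⟩
    have htb : t < b := by
      rcases lt_or_eq_of_le ht.2 with h | h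
      · exact h
      · exfalso
        rw [h, sub_self, mul_zero] at m1
        nlinarith
    have htc : c < t := by
      rcases lt_or_eq_of_le ht.1 with h | h
      · exact h
      · exfalso
        rw [← h] at m1
        have e1 := abs_le.1 (hVB c)
        have e2 := abs_le.1 (hVB a)
        have e3 := abs_le.1 (hVB b)
        nlinarith
    have hloc : IsLocalMin (fun y => v y - s * l y) (t • p0) := by
      have h3 : ∀ᶠ y in 𝓝 (t • p0), l y ∈ Ioo c b := by
        refine hlc.continuousAt.eventually_mem ?_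
        rw [hlp]
        exact Ioo_mem_nhds htc htb
      filter_upwards [h3] with y hy
      have h4 : V t - s * (t - b) ≤ V (l y) - s * (l y - b) := hmin ⟨hy.1.le, hy.2.le⟩
      have h5 : V (l y) = v y := by rw [hV]; simp only [hspan]
      have h6 : V t = v (t • p0) := by rw [hV]
      rw [h5, h6] at h4
      rw [hlp]
      linarith
    have hgrad : gradient (fun y => s * l y) (t • p0) = (s / ‖p0‖ ^ 2) • p0 := by
      refine HasGradientAt.gradient ?_
      rw [hasGradientAt_iff_hasFDerivAt]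
      have h7 : (fun y => s * l y) = fun y => ((InnerProductSpace.toDual ℝ (E n))
          ((s / ‖p0‖ ^ 2) • p0)) y := by
        funext y
        rw [hl]
        simp
        ring
      rw [h7]
      exact ContinuousLinearMap.hasFDerivAt _
    have hcd : ContDiff ℝ 1 (fun y => s * l y) := by
      rw [hl]
      exact contDiff_const.mul ((contDiff_const.inner ℝ contDiff_id).div_const _)
    have h8 := hsup _ hcd _ hloc
    rw [hgrad] at h8
    have := hneg (t • p0) (s / ‖p0‖ ^ 2) (by positivity)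
    linarith
  -- periodicity of `V`
  obtain ⟨e, he⟩ : ∃ e : E n, e = iv (fun _ => 1) := ⟨_, rfl⟩
  have he0 : e ≠ 0 := by
    intro h
    have h9 := congrArg (fun z : E n => z ⟨0, by omega⟩) h
    rw [he] at h9
    simp [iv] at h9
  have hT : l e ≠ 0 := by
    intro h
    have := hspan e
    rw [h, zero_smul] at this
    exact he0 this.symm
  have hVp : ∀ t, V (t + l e) = V t := by
    intro t
    rw [hV]
    simp only [add_smul, hspan]
    rw [he]
    exact hp _ _
  have hVn : ∀ (m : ℕ) (t : ℝ), V (t + m * l e) = V t := by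
    intro m
    induction m with
    | zero => intro t; simp
    | succ m ih =>
      intro t
      rw [show t + ((m + 1 : ℕ) : ℝ) * l e = (t + m * l e) + l e by push_cast; ring, hVp, ih]
  have hVconst : ∀ a b, a < b → V a = V b := by
    intro a b hab
    refine le_antisymm ?_ (hanti a b hab)
    rcases lt_or_gt_of_ne hT with h | h
    · obtain ⟨m, hm⟩ := exists_nat_gt ((b - a) / (-(l e)))
      rw [div_lt_iff₀ (by linarith)] at hm
      have h10 := hanti (b + m * l e) a (by linarith)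
      rw [hVn] at h10
      exact h10
    · obtain ⟨m, hm⟩ := exists_nat_gt ((b - a) / (l e))
      rw [div_lt_iff₀ h] at hm
      have h10 := hanti b (a + m * l e) (by linarith)
      rw [hVn] at h10
      exact h10
  have hVc2 : ∀ a b, V a = V b := by
    intro a b
    rcases lt_trichotomy a b with h | h | h
    · exact hVconst a b h
    · rw [h]
    · exact (hVconst b a h).symm
  have hconst : ∀ y z, v y = v z := by
    intro y z
    have := hVc2 (l y) (l z)
    rw [hV] at this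
    simpa only [hspan] using this
  refine le_antisymm (H0_nonpos h2 x) ?_
  have h3 := hsup (fun _ => 0) contDiff_const x (by
    refine Eventually.of_forall fun y => ?_
    show v x - 0 ≤ v y - 0
    rw [hconst y x])
  have h4 : gradient (fun _ : E n => (0 : ℝ)) x = 0 := by
    refine HasGradientAt.gradient ?_
    rw [hasGradientAt_iff_hasFDerivAt, map_zero]
    exact hasFDerivAt_const 0 x
  rwa [h4] at h3

lemma sgn_const (hH : IsHam H) {R : ℝ} (hR : ∀ x p : E n, R ≤ ‖p‖ → H x p ≠ 0) {C : Set (E n)}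
    (hC : IsPreconnected C) (hCR : ∀ p ∈ C, R ≤ ‖p‖) {x0 p0 : E n} (hp0 : p0 ∈ C)
    (h0 : H x0 p0 < 0) (x p : E n) (hp : p ∈ C) : H x p < 0 := by
  by_contra hcon
  push Not at hcon
  have hS : IsPreconnected ((univ : Set (E n)) ×ˢ C) := isPreconnected_univ.prod hC
  have h1 := hS.intermediate_value (a := (x0, p0)) (b := (x, p)) ⟨trivial, hp0⟩ ⟨trivial, hp⟩
    (ham_cont hH).continuousOn
  obtain ⟨z, hz, hz0⟩ := h1 (⟨h0.le, hcon⟩ : (0 : ℝ) ∈ Icc (H x0 p0) (H x p))
  exact hR z.1 z.2 (hCR _ hz.2) hz0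

lemma dichotomy (hH : IsHam H) (h1 : A1 H) (h2 : A2 H) :
    (∃ R : ℝ, ∀ x p : E n, H x p ≤ 0 → ‖p‖ ≤ R) ∨ (∀ v, IsSol H v → ∀ x, H x 0 = 0) := by
  obtain ⟨R, hR0, hR⟩ := no_zero hH h1
  by_cases hall : ∀ x p : E n, R ≤ ‖p‖ → 0 < H x p
  · left
    refine ⟨R, fun x p hxp => ?_⟩
    by_contra hcon
    push Not at hcon
    have := hall x p hcon.le
    linarith
  · right
    push Not at hall
    obtain ⟨x0, p0, hp0, hH0⟩ := hall
    have hH0' : H x0 p0 < 0 := lt_of_le_of_ne hH0 (hR x0 p0 hp0)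
    have hp00 : p0 ≠ 0 := by
      intro h
      rw [h, norm_zero] at hp0
      linarith
    intro v hv x
    rcases Nat.lt_or_ge 1 n with hn | hn
    · -- `n ≥ 2`
      refine const_sol h2 hv (fun y p hp => ?_) x
      have hsph : IsPreconnected (Metric.sphere (0 : E n) R) := by
        refine isPreconnected_sphere ?_ 0 R
        rw [← Module.finrank_eq_rank, finrank_euclideanSpace_fin]
        exact_mod_cast hn
      have hC : IsPreconnected ((fun z : ℝ × E n => z.1 • z.2) ''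
          (Ici (1 : ℝ) ×ˢ Metric.sphere (0 : E n) R)) := by
        refine (isPreconnected_Ici.prod hsph).image _ ?_
        exact (continuous_fst.smul continuous_snd).continuousOn
      have hCR : ∀ q ∈ ((fun z : ℝ × E n => z.1 • z.2) ''
          (Ici (1 : ℝ) ×ˢ Metric.sphere (0 : E n) R)), R ≤ ‖q‖ := by
        rintro q ⟨⟨r, z⟩, ⟨hr, hz⟩, rfl⟩
        have hr' : (1 : ℝ) ≤ r := hr
        have hz' : ‖z‖ = R := by simpa using hz
        simp only []
        rw [norm_smul, hz', Real.norm_eq_abs, abs_of_pos (by linarith)]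
        nlinarith
      have hmemC : ∀ q : E n, R ≤ ‖q‖ → q ∈ ((fun z : ℝ × E n => z.1 • z.2) ''
          (Ici (1 : ℝ) ×ˢ Metric.sphere (0 : E n) R)) := by
        intro q hq
        have hq0 : 0 < ‖q‖ := by linarith
        refine ⟨(‖q‖ / R, (R / ‖q‖) • q), ⟨?_, ?_⟩, ?_⟩
        · show 1 ≤ ‖q‖ / R
          rw [le_div_iff₀ hR0]
          linarith
        · rw [mem_sphere_zero_iff_norm, norm_smul, Real.norm_eq_abs, abs_of_pos (by positivity)]
          field_simp
        · simp only []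
          rw [smul_smul]
          have : ‖q‖ / R * (R / ‖q‖) = 1 := by field_simp
          rw [this, one_smul]
      rcases le_or_gt R ‖p‖ with hpR | hpR
      · exact sgn_const hH hR hC hCR (hmemC _ hp0) hH0' y p (hmemC _ hpR)
      · have hp' : 0 < ‖p‖ := norm_pos_iff.2 hp
        have hq : R ≤ ‖(R / ‖p‖) • p‖ := by
          rw [norm_smul, Real.norm_eq_abs, abs_of_pos (by positivity)]
          apply le_of_eq
          field_simp
        have h3 := sgn_const hH hR hC hCR (hmemC _ hp0) hH0' y _ (hmemC _ hq)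
        have h4 := scale_neg hH h2 (l := ‖p‖ / R) (by positivity)
          (by rw [div_le_one hR0]; exact hpR.le) h3
        rw [smul_smul] at h4
        have : ‖p‖ / R * (R / ‖p‖) = 1 := by field_simp
        rwa [this, one_smul] at h4
    · have hn1 : n = 1 := by
        rcases Nat.lt_or_ge 0 n with h | h
        · omega
        · exfalso
          have hn0 : n = 0 := by omega
          subst hn0
          exact hp00 (Subsingleton.elim _ _)
      refine const_sol_one hn1 h2 hv hp00 (fun y r hr => ?_) x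
      have hC : IsPreconnected ((fun r : ℝ => r • p0) '' (Ici (1 : ℝ))) :=
        isPreconnected_Ici.image _ (continuous_id.smul continuous_const).continuousOn
      have hCR : ∀ q ∈ ((fun r : ℝ => r • p0) '' (Ici (1 : ℝ))), R ≤ ‖q‖ := by
        rintro q ⟨r, hr, rfl⟩
        have hr' : (1 : ℝ) ≤ r := hr
        simp only []
        rw [norm_smul, Real.norm_eq_abs, abs_of_pos (by linarith)]
        nlinarith
      rcases le_or_gt 1 r with h | h
      · exact sgn_const hH hR hC hCR ⟨1, le_refl (1 : ℝ), one_smul _ _⟩ hH0' y _ ⟨r, h, rfl⟩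
      · have h3 := sgn_const hH hR hC hCR ⟨1, le_refl (1 : ℝ), one_smul _ _⟩ hH0' y p0
          ⟨1, le_refl (1 : ℝ), one_smul _ _⟩
        exact scale_neg hH h2 hr h.le h3

/-! ### doubling of variables -/

lemma grad_cont {φ : E n → ℝ} (hφ : ContDiff ℝ 1 φ) : Continuous (fun x => gradient φ x) :=
  (InnerProductSpace.toDual ℝ (E n)).symm.continuous.comp (hφ.continuous_fderiv (by norm_num))

lemma grad_comb {φ : E n → ℝ} (hφ : ContDiff ℝ 1 φ) (c δ J : ℝ) (a x : E n) :
    gradient (fun z => c * (δ * φ z + J / 2 * ‖z - a‖ ^ 2)) x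
      = c • (δ • gradient φ x + J • (x - a)) := by
  refine HasGradientAt.gradient ?_
  rw [hasGradientAt_iff_hasFDerivAt]
  have h1 : HasFDerivAt (fun y : E n => y - a) (ContinuousLinearMap.id ℝ (E n)) x :=
    (hasFDerivAt_id x).sub_const a
  have h0 : HasFDerivAt φ (fderiv ℝ φ x) x :=
    ((hφ.differentiable (by norm_num)) x).hasFDerivAt
  have h2 := ((h0.const_mul δ).add ((h1.norm_sq).const_mul (J / 2))).const_mul c
  refine h2.congr_fderiv ?_
  ext w
  have h3 : inner ℝ (gradient φ x) w = fderiv ℝ φ x w := by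
    unfold gradient
    rw [← InnerProductSpace.toDual_apply_apply, LinearIsometryEquiv.apply_symm_apply]
  have h4 : ((InnerProductSpace.toDual ℝ (E n)) (c • (δ • gradient φ x + J • (x - a)))) w
      = c * (δ * fderiv ℝ φ x w + J * inner ℝ (x - a) w) := by
    rw [InnerProductSpace.toDual_apply_apply, inner_smul_left, inner_add_left, inner_smul_left,
      inner_smul_left, h3]
    rfl
  have h5 : (c • (δ • fderiv ℝ φ x + (J / 2) • 2 • (innerSL ℝ) (x - a) ∘SL
      ContinuousLinearMap.id ℝ (E n))) w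
      = c * (δ * fderiv ℝ φ x w + (J / 2) * (2 * inner ℝ (x - a) w)) := by
    show c * (δ * fderiv ℝ φ x w + (J / 2) * ((2 : ℕ) • inner ℝ (x - a) w)) = _
    rw [nsmul_eq_mul]
    norm_num
  refine (h5.trans ?_).trans h4.symm
  ring

lemma cd_comb {φ : E n → ℝ} (hφ : ContDiff ℝ 1 φ) (c δ J : ℝ) (a : E n) :
    ContDiff ℝ 1 (fun z => c * (δ * φ z + J / 2 * ‖z - a‖ ^ 2)) :=
  contDiff_const.mul ((contDiff_const.mul hφ).add (cd_quad a (J / 2)))

lemma doubling_step {v w φ : E n → ℝ} (hv : IsSol H v) (hw : IsSol H w) (hφ : ContDiff ℝ 1 φ)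
    (hφp : Per φ) {l δ : ℝ} (hl : 0 < l) {B : ℝ} (hB0 : 0 ≤ B) (hB : ∀ x, |w x| ≤ B)
    {J : ℝ} (hJ : 1 ≤ J) :
    ∃ x ∈ cube n, ∃ y : E n, ‖x - y‖ ^ 2 ≤ 4 * B / J ∧ 0 ≤ H y (J • (x - y)) ∧
      H x (l⁻¹ • (δ • gradient φ x + J • (x - y))) ≤ 0 ∧
      ∀ z, l * v z - w z - δ * φ z ≤ l * v x - w y - δ * φ x := by
  obtain ⟨vc, vp, vsub, -⟩ := hv
  obtain ⟨wc, wp, -, wsup⟩ := hw
  have φc : Continuous φ := hφ.continuous
  obtain ⟨ρ, hρ⟩ : ∃ ρ : ℝ, ρ = 2 * B + 2 := ⟨_, rfl⟩
  have hρ0 : 0 < ρ := by rw [hρ]; linarith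
  have hD : IsCompact (cube n ×ˢ Metric.closedBall (0 : E n) ρ) :=
    cube_compact.prod (isCompact_closedBall _ _)
  have hDn : (cube n ×ˢ Metric.closedBall (0 : E n) ρ).Nonempty := by
    obtain ⟨a, ha⟩ := cube_nonempty (n := n)
    exact ⟨(a, 0), ha, by simp [hρ0.le]⟩
  obtain ⟨⟨x, h⟩, ⟨hx, hh⟩, hmax⟩ := hD.exists_isMaxOn hDn
    (f := fun z : E n × E n => l * v z.1 - w (z.1 + z.2) - δ * φ z.1 - J / 2 * ‖z.2‖ ^ 2)
    (by fun_prop)
  have hmaxc : ∀ a b : E n, a ∈ cube n → ‖b‖ ≤ ρ →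
      l * v a - w (a + b) - δ * φ a - J / 2 * ‖b‖ ^ 2
        ≤ l * v x - w (x + h) - δ * φ x - J / 2 * ‖h‖ ^ 2 := by
    intro a b ha hb
    exact hmax (a := (a, b)) ⟨ha, by simpa using hb⟩
  have hmaxg : ∀ a b : E n, l * v a - w b - δ * φ a - J / 2 * ‖b - a‖ ^ 2
        ≤ l * v x - w (x + h) - δ * φ x - J / 2 * ‖h‖ ^ 2 := by
    intro a b
    obtain ⟨k, hk⟩ := to_cube a
    rcases le_or_gt ‖b - a‖ ρ with hc | hc
    · have h1 := hmaxc (a + iv k) (b - a) hk hc
      rw [vp, hφp, show a + iv k + (b - a) = b + iv k by abel, wp] at h1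
      exact h1
    · have h1 := hmaxc (a + iv k) 0 hk (by simp [hρ0.le])
      rw [vp, hφp, add_zero, wp, norm_zero] at h1
      refine le_trans ?_ h1
      have e1 := abs_le.1 (hB a)
      have e2 := abs_le.1 (hB b)
      have e3 : ρ ^ 2 ≤ ‖b - a‖ ^ 2 := by gcongr
      have e4 : 2 * B ≤ J / 2 * ‖b - a‖ ^ 2 := by
        rw [hρ] at e3
        nlinarith
      linarith
  refine ⟨x, hx, x + h, ?_, ?_, ?_, ?_⟩
  · have h1 := hmaxg x x
    rw [sub_self, norm_zero] at h1
    have e1 := abs_le.1 (hB x)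
    have e2 := abs_le.1 (hB (x + h))
    rw [show x - (x + h) = -h by abel, norm_neg, le_div_iff₀ (by linarith)]
    nlinarith
  · have hloc : IsLocalMin (fun y => w y - (-(J / 2)) * ‖y - x‖ ^ 2) (x + h) := by
      refine Eventually.of_forall fun y => ?_
      have h1 := hmaxg x y
      show w (x + h) - (-(J / 2)) * ‖x + h - x‖ ^ 2 ≤ w y - (-(J / 2)) * ‖y - x‖ ^ 2
      rw [add_sub_cancel_left]
      linarith
    have h2 := wsup _ (cd_quad x (-(J / 2))) _ hloc
    rw [grad_quad] at h2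
    have e : (2 * -(J / 2)) • (x + h - x) = J • (x - (x + h)) := by module
    rwa [e] at h2
  · have hloc : IsLocalMax (fun y => v y - l⁻¹ * (δ * φ y + J / 2 * ‖y - (x + h)‖ ^ 2)) x := by
      refine Eventually.of_forall fun y => ?_
      have h1 := hmaxg y (x + h)
      show v y - l⁻¹ * (δ * φ y + J / 2 * ‖y - (x + h)‖ ^ 2)
        ≤ v x - l⁻¹ * (δ * φ x + J / 2 * ‖x - (x + h)‖ ^ 2)
      have e1 : ‖x - (x + h)‖ = ‖h‖ := by rw [show x - (x + h) = -h by abel, norm_neg]
      have e2 : ‖y - (x + h)‖ = ‖x + h - y‖ := norm_sub_rev _ _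
      rw [e1, e2]
      have h3 : l * (v y - l⁻¹ * (δ * φ y + J / 2 * ‖x + h - y‖ ^ 2))
          ≤ l * (v x - l⁻¹ * (δ * φ x + J / 2 * ‖h‖ ^ 2)) := by
        have e3 : ∀ s t : ℝ, l * (s - l⁻¹ * t) = l * s - t := by
          intro s t
          rw [mul_sub, ← mul_assoc, mul_inv_cancel₀ hl.ne', one_mul]
        rw [e3, e3]
        linarith
      exact le_of_mul_le_mul_left h3 hl
    have h2 := vsub _ (cd_comb hφ l⁻¹ δ J (x + h)) _ hloc
    rwa [grad_comb hφ] at h2
  · intro z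
    have h1 := hmaxg z z
    rw [sub_self, norm_zero] at h1
    have : 0 ≤ J / 2 * ‖h‖ ^ 2 := by positivity
    linarith

lemma doubling (hH : IsHam H) {R : ℝ} (hR : ∀ x p : E n, H x p ≤ 0 → ‖p‖ ≤ R) {v w φ : E n → ℝ}
    (hv : IsSol H v) (hw : IsSol H w) (hφ : ContDiff ℝ 1 φ) (hφp : Per φ) {G : ℝ}
    (hG : ∀ x, ‖gradient φ x‖ ≤ G) {l δ : ℝ} (hl : 0 < l) (hl1 : l ≤ 1) (hδ : 0 ≤ δ)
    (hδ1 : δ ≤ 1) :
    ∃ x ∈ cube n, ∃ p : E n, ‖p‖ ≤ |R| + G ∧ 0 ≤ H x p ∧
      H x (l⁻¹ • (δ • gradient φ x + p)) ≤ 0 ∧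
      ∀ z, l * v z - w z - δ * φ z ≤ l * v x - w x - δ * φ x := by
  obtain ⟨B, hB0, hB⟩ := per_bdd hw.1 hw.2.1
  choose x hx y hxy hsup hsub hmax using fun j : ℕ =>
    doubling_step (δ := δ) hv hw hφ hφp hl hB0 hB (J := (j : ℝ) + 1)
      (by have : (0 : ℝ) ≤ j := Nat.cast_nonneg j; linarith)
  have hp : ∀ j : ℕ, ‖((j : ℝ) + 1) • (x j - y j)‖ ≤ |R| + G := by
    intro j
    have h1 := hR _ _ (hsub j)
    rw [norm_smul, norm_inv, Real.norm_eq_abs, abs_of_pos hl, inv_mul_le_iff₀ hl] at h1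
    have h2 : ((j : ℝ) + 1) • (x j - y j)
        = (δ • gradient φ (x j) + ((j : ℝ) + 1) • (x j - y j)) - δ • gradient φ (x j) := by abel
    rw [h2]
    refine (norm_sub_le _ _).trans (add_le_add (h1.trans ?_) ?_)
    · have := le_abs_self R
      have := abs_nonneg R
      nlinarith
    · rw [norm_smul, Real.norm_eq_abs, abs_of_nonneg hδ]
      have := hG (x j)
      have := norm_nonneg (gradient φ (x j))
      nlinarith
  have hK : IsCompact (cube n ×ˢ Metric.closedBall (0 : E n) (|R| + G)) :=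
    cube_compact.prod (isCompact_closedBall _ _)
  obtain ⟨⟨x0, p0⟩, ⟨hx0, hp0⟩, s, hs, hlim⟩ := hK.tendsto_subseq
    (x := fun j : ℕ => (x j, ((j : ℝ) + 1) • (x j - y j)))
    (fun j => ⟨hx j, by simpa using hp j⟩)
  have hlx : Tendsto (fun j => x (s j)) atTop (𝓝 x0) := (continuous_fst.tendsto _).comp hlim
  have hlp : Tendsto (fun j => (((s j : ℕ) : ℝ) + 1) • (x (s j) - y (s j))) atTop (𝓝 p0) :=
    (continuous_snd.tendsto _).comp hlim
  have hd0 : Tendsto (fun j : ℕ => ‖x j - y j‖ ^ 2) atTop (𝓝 0) := by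
    refine squeeze_zero (fun j => by positivity) hxy ?_
    exact tendsto_const_nhds.div_atTop (tendsto_natCast_atTop_atTop.atTop_add tendsto_const_nhds)
  have hd1 : Tendsto (fun j : ℕ => ‖x j - y j‖) atTop (𝓝 0) := by
    have := hd0.sqrt
    simpa [Real.sqrt_sq (norm_nonneg _)] using this
  have hd2 : Tendsto (fun j : ℕ => x j - y j) atTop (𝓝 0) :=
    tendsto_zero_iff_norm_tendsto_zero.2 hd1
  have hly : Tendsto (fun j => y (s j)) atTop (𝓝 x0) := by
    have h1 := hlx.sub (hd2.comp hs.tendsto_atTop)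
    simpa using h1
  refine ⟨x0, hx0, p0, by simpa using hp0, ?_, ?_, ?_⟩
  · have h1 : Tendsto (fun j => H (y (s j)) ((((s j : ℕ) : ℝ) + 1) • (x (s j) - y (s j)))) atTop
        (𝓝 (H x0 p0)) := ((ham_cont hH).tendsto (x0, p0)).comp (hly.prodMk_nhds hlp)
    exact ge_of_tendsto' h1 fun j => hsup _
  · have hg : Tendsto (fun j => gradient φ (x (s j))) atTop (𝓝 (gradient φ x0)) :=
      ((grad_cont hφ).tendsto x0).comp hlx
    have h2 := ((hg.const_smul δ).add hlp).const_smul l⁻¹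
    have h1 : Tendsto (fun j => H (x (s j)) (l⁻¹ • (δ • gradient φ (x (s j)) +
        (((s j : ℕ) : ℝ) + 1) • (x (s j) - y (s j))))) atTop
        (𝓝 (H x0 (l⁻¹ • (δ • gradient φ x0 + p0)))) :=
      ((ham_cont hH).tendsto (x0, _)).comp (hlx.prodMk_nhds h2)
    exact le_of_tendsto' h1 fun j => hsub _
  · intro z
    have h1 : Tendsto (fun j => l * v (x (s j)) - w (y (s j)) - δ * φ (x (s j))) atTop
        (𝓝 (l * v x0 - w x0 - δ * φ x0)) :=
      (((((hv.1.tendsto x0).comp hlx).const_mul l).sub ((hw.1.tendsto x0).comp hly))).sub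
        (((hφ.continuous.tendsto x0).comp hlx).const_mul δ)
    exact ge_of_tendsto' h1 fun j => hmax _ z

lemma mvt_p (hH : IsHam H) {x p q : E n} (h0 : 0 ≤ H x p) (h1 : H x (p + q) ≤ 0) :
    ∃ s : ℝ, 0 ≤ s ∧ s ≤ 1 ∧ DpH H x (p + s • q) q ≤ 0 := by
  obtain ⟨s, hs, hs2⟩ := exists_hasDerivAt_eq_slope (fun t : ℝ => H x (p + t • q))
    (fun t => DpH H x (p + t • q) q) (zero_lt_one)
    (fun t _ => (line_p hH x p q t).continuousAt.continuousWithinAt)
    (fun t _ => line_p hH x p q t)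
  refine ⟨s, hs.1.le, hs.2.le, ?_⟩
  rw [hs2]
  simp only [one_smul, zero_smul, add_zero, sub_zero, div_one]
  linarith

/-- the key point: for every test function there is a good contact point -/
lemma contact (hH : IsHam H) (h2 : A2 H) {R : ℝ} (hR : ∀ x p : E n, H x p ≤ 0 → ‖p‖ ≤ R)
    {v w φ : E n → ℝ} (hv : IsSol H v) (hw : IsSol H w) (hφ : ContDiff ℝ 1 φ) (hφp : Per φ) :
    ∃ x ∈ cube n, ∃ p : E n, (∀ y, v y - w y ≤ v x - w x) ∧ H x p = 0 ∧ DpH H x p p = 0 ∧
      DpH H x p (gradient φ x) ≤ 0 := by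
  have hgp : Per (fun x => ‖gradient φ x‖) := by
    intro k x
    have h3 : (fun y => φ (y + iv k)) = φ := by
      funext y
      exact hφp k y
    have h4 : fderiv ℝ φ (x + iv k) = fderiv ℝ φ x := by
      have h5 := fderiv_comp_add_right (f := φ) (x := x) (𝕜 := ℝ) (iv k)
      rw [h3] at h5
      exact h5.symm
    show ‖gradient φ (x + iv k)‖ = ‖gradient φ x‖
    unfold gradient
    rw [h4]
  obtain ⟨G, hG0, hG⟩ := per_bdd (grad_cont hφ).norm hgp
  have hG' : ∀ x, ‖gradient φ x‖ ≤ G := fun x => by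
    have := hG x
    rwa [abs_of_nonneg (norm_nonneg _)] at this
  obtain ⟨t, ht⟩ : ∃ t : ℕ → ℝ, t = fun m : ℕ => 1 / ((m : ℝ) + 2) := ⟨_, rfl⟩
  have ht0 : ∀ m, 0 < t m := fun m => by rw [ht]; positivity
  have ht1 : ∀ m, t m ≤ 1 / 2 := fun m => by
    rw [ht]
    exact one_div_le_one_div_of_le (by norm_num)
      (by have : (0 : ℝ) ≤ m := Nat.cast_nonneg m; linarith)
  have htl : Tendsto t atTop (𝓝 0) := by
    rw [ht]
    exact tendsto_const_nhds.div_atTop (tendsto_natCast_atTop_atTop.atTop_add tendsto_const_nhds)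
  choose x hx p hp hsup hsub hmax using fun m : ℕ =>
    doubling hH hR hv hw hφ hφp hG' (l := 1 - t m) (δ := t m ^ 2) (by linarith [ht1 m])
      (by linarith [ht0 m]) (by positivity) (by nlinarith [ht0 m, ht1 m])
  -- derivative information
  have hc : ∀ m, ∃ s : ℝ, 0 ≤ s ∧ s ≤ 1 ∧
      DpH H (x m) (p m + s • (t m ^ 2 • gradient φ (x m))) (gradient φ (x m)) ≤ 0 := by
    intro m
    have hl : 0 < 1 - t m := by linarith [ht1 m]
    have h3 := scale_nonpos hH h2 hl (by linarith [ht0 m]) (hsub m)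
    rw [smul_smul, mul_inv_cancel₀ hl.ne', one_smul, add_comm] at h3
    obtain ⟨s, hs0, hs1, hs2⟩ := mvt_p hH (hsup m) h3
    refine ⟨s, hs0, hs1, ?_⟩
    have h4 : DpH H (x m) (p m + s • (t m ^ 2 • gradient φ (x m))) (t m ^ 2 • gradient φ (x m))
        = t m ^ 2 * DpH H (x m) (p m + s • (t m ^ 2 • gradient φ (x m))) (gradient φ (x m)) := by
      unfold DpH
      rw [map_smul, smul_eq_mul]
    rw [h4] at hs2
    have := ht0 m
    exact nonpos_of_mul_nonpos_right hs2 (by positivity)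
  have hd : ∀ m, ∃ s : ℝ, 0 ≤ s ∧ s ≤ 1 ∧
      DpH H (x m) (p m + s • (((1 - t m)⁻¹ * t m) • (p m + t m • gradient φ (x m))))
        (p m + t m • gradient φ (x m)) ≤ 0 := by
    intro m
    have hl : 0 < 1 - t m := by linarith [ht1 m]
    have e1 : (1 - t m)⁻¹ • (t m ^ 2 • gradient φ (x m) + p m)
        = p m + ((1 - t m)⁻¹ * t m) • (p m + t m • gradient φ (x m)) := by
      have e2 : p m = ((1 - t m)⁻¹ * (1 - t m)) • p m := by
        rw [inv_mul_cancel₀ hl.ne', one_smul]
      have e3 : p m + ((1 - t m)⁻¹ * t m) • (p m + t m • gradient φ (x m))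
          = ((1 - t m)⁻¹ * (1 - t m)) • p m
            + ((1 - t m)⁻¹ * t m) • (p m + t m • gradient φ (x m)) := by
        rw [← e2]
      rw [e3]
      module
    have h3 := hsub m
    rw [e1] at h3
    obtain ⟨s, hs0, hs1, hs2⟩ := mvt_p hH (hsup m) h3
    refine ⟨s, hs0, hs1, ?_⟩
    unfold DpH at hs2 ⊢
    rw [map_smul, smul_eq_mul] at hs2
    have := ht0 m
    exact nonpos_of_mul_nonpos_right hs2 (by positivity)
  choose s1 hs10 hs11 hs12 using hc
  choose s2 hs20 hs21 hs22 using hd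
  have hK : IsCompact (cube n ×ˢ Metric.closedBall (0 : E n) (|R| + G)) :=
    cube_compact.prod (isCompact_closedBall _ _)
  obtain ⟨⟨x0, p0⟩, ⟨hx0, hp0⟩, s, hs, hlim⟩ := hK.tendsto_subseq
    (x := fun m : ℕ => (x m, p m)) (fun m => ⟨hx m, by simpa using hp m⟩)
  have hlx : Tendsto (fun j => x (s j)) atTop (𝓝 x0) := (continuous_fst.tendsto _).comp hlim
  have hlp : Tendsto (fun j => p (s j)) atTop (𝓝 p0) := (continuous_snd.tendsto _).comp hlim
  have hlt : Tendsto (fun j => t (s j)) atTop (𝓝 0) := htl.comp hs.tendsto_atTop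
  have hlg : Tendsto (fun j => gradient φ (x (s j))) atTop (𝓝 (gradient φ x0)) :=
    ((grad_cont hφ).tendsto x0).comp hlx
  have hli : Tendsto (fun j => (1 - t (s j))⁻¹) atTop (𝓝 1) := by
    have h1 : Tendsto (fun j => 1 - t (s j)) atTop (𝓝 (1 - 0)) := tendsto_const_nhds.sub hlt
    have h3 := h1.inv₀ (by norm_num)
    simpa using h3
  have hge : 0 ≤ H x0 p0 := by
    have h1 : Tendsto (fun j => H (x (s j)) (p (s j))) atTop (𝓝 (H x0 p0)) :=
      ((ham_cont hH).tendsto (x0, p0)).comp (hlx.prodMk_nhds hlp)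
    exact ge_of_tendsto' h1 fun j => hsup _
  have hle : H x0 p0 ≤ 0 := by
    have h3 : Tendsto (fun j => (1 - t (s j))⁻¹ • (t (s j) ^ 2 • gradient φ (x (s j)) + p (s j)))
        atTop (𝓝 ((1 : ℝ) • ((0 : ℝ) ^ 2 • gradient φ x0 + p0))) :=
      hli.smul (((hlt.pow 2).smul hlg).add hlp)
    have e : (1 : ℝ) • ((0 : ℝ) ^ 2 • gradient φ x0 + p0) = p0 := by
      rw [one_smul]
      norm_num
    rw [e] at h3
    have h1 : Tendsto (fun j => H (x (s j))
        ((1 - t (s j))⁻¹ • (t (s j) ^ 2 • gradient φ (x (s j)) + p (s j)))) atTop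
        (𝓝 (H x0 p0)) := ((ham_cont hH).tendsto (x0, p0)).comp (hlx.prodMk_nhds h3)
    exact le_of_tendsto' h1 fun j => hsub _
  have h0 : H x0 p0 = 0 := le_antisymm hle hge
  have hbd1 : Tendsto (fun j => s1 (s j) • (t (s j) ^ 2 • gradient φ (x (s j)))) atTop (𝓝 0) := by
    have h3 : Tendsto (fun j => t (s j) ^ 2 • gradient φ (x (s j))) atTop (𝓝 0) := by
      have := (hlt.pow 2).smul hlg
      simpa using this
    refine squeeze_zero_norm (fun j => ?_) (tendsto_zero_iff_norm_tendsto_zero.1 h3)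
    rw [norm_smul (s1 (s j)), Real.norm_eq_abs, abs_of_nonneg (hs10 _)]
    exact mul_le_of_le_one_left (norm_nonneg _) (hs11 _)
  have hbd2 : Tendsto (fun j => s2 (s j) • (((1 - t (s j))⁻¹ * t (s j)) •
      (p (s j) + t (s j) • gradient φ (x (s j))))) atTop (𝓝 0) := by
    have h3 : Tendsto (fun j => ((1 - t (s j))⁻¹ * t (s j)) •
      (p (s j) + t (s j) • gradient φ (x (s j)))) atTop (𝓝 0) := by
      have := (hli.mul hlt).smul (hlp.add (hlt.smul hlg))
      simpa using this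
    refine squeeze_zero_norm (fun j => ?_) (tendsto_zero_iff_norm_tendsto_zero.1 h3)
    rw [norm_smul (s2 (s j)), Real.norm_eq_abs, abs_of_nonneg (hs20 _)]
    exact mul_le_of_le_one_left (norm_nonneg _) (hs21 _)
  refine ⟨x0, hx0, p0, ?_, h0, ?_, ?_⟩
  · intro y
    have h3 : Tendsto (fun j => (1 - t (s j)) * v (x (s j)) - w (x (s j))
        - t (s j) ^ 2 * φ (x (s j))) atTop (𝓝 ((1 - 0) * v x0 - w x0 - 0 ^ 2 * φ x0)) :=
      (((tendsto_const_nhds.sub hlt).mul ((hv.1.tendsto x0).comp hlx)).sub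
        ((hw.1.tendsto x0).comp hlx)).sub ((hlt.pow 2).mul ((hφ.continuous.tendsto x0).comp hlx))
    have h4 : Tendsto (fun j => (1 - t (s j)) * v y - w y - t (s j) ^ 2 * φ y) atTop
        (𝓝 ((1 - 0) * v y - w y - 0 ^ 2 * φ y)) :=
      (((tendsto_const_nhds.sub hlt).mul tendsto_const_nhds).sub
        tendsto_const_nhds).sub ((hlt.pow 2).mul tendsto_const_nhds)
    have h5 := le_of_tendsto_of_tendsto' h4 h3 fun j => hmax _ y
    simpa using h5
  · refine le_antisymm ?_ ?_
    · have h3 : Tendsto (fun j => DpH H (x (s j)) (p (s j) + s2 (s j) •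
          (((1 - t (s j))⁻¹ * t (s j)) • (p (s j) + t (s j) • gradient φ (x (s j)))))
          (p (s j) + t (s j) • gradient φ (x (s j)))) atTop (𝓝 (DpH H x0 (p0 + 0)
            (p0 + (0 : ℝ) • gradient φ x0))) :=
        ((DpH_cont hH).tendsto ((x0, p0 + 0), p0 + (0 : ℝ) • gradient φ x0)).comp
          ((hlx.prodMk_nhds (hlp.add hbd2)).prodMk_nhds (hlp.add (hlt.smul hlg)))
      have h4 := le_of_tendsto' h3 fun j => hs22 _
      simpa using h4
    · obtain ⟨θ, hθ, hA⟩ := h2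
      have := hA x0 p0
      rw [h0] at this
      simpa using this
  · have h3 : Tendsto (fun j => DpH H (x (s j)) (p (s j) + s1 (s j) •
        (t (s j) ^ 2 • gradient φ (x (s j)))) (gradient φ (x (s j)))) atTop
        (𝓝 (DpH H x0 (p0 + 0) (gradient φ x0))) :=
      ((DpH_cont hH).tendsto ((x0, p0 + 0), gradient φ x0)).comp
        ((hlx.prodMk_nhds (hlp.add hbd1)).prodMk_nhds hlg)
    have h4 := le_of_tendsto' h3 fun j => hs12 _
    simpa using h4

end ham

/-! ### Hahn–Banach and Riesz–Markov -/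

lemma exists_measure {X : Type*} [TopologicalSpace X] [CompactSpace X] [T2Space X]
    [MeasurableSpace X] [BorelSpace X] (t : Set C(X, ℝ)) (ht0 : (0 : C(X, ℝ)) ∈ t)
    (hadd : ∀ F ∈ t, ∀ G ∈ t, F + G ∈ t) (hsmul : ∀ (c : ℝ), ∀ F ∈ t, c • F ∈ t)
    (h : ∀ F ∈ t, ∃ z, F z ≤ 0) :
    ∃ ν : Measure X, IsProbabilityMeasure ν ∧ ∀ F ∈ t, ∫ z, F z ∂ν = 0 := by
  obtain ⟨U, hU⟩ : ∃ U : Set C(X, ℝ), ∀ F, F ∈ U ↔ ∀ z, 0 < F z :=
    ⟨{F | ∀ z, 0 < F z}, fun _ => Iff.rfl⟩
  have hUc : Convex ℝ U := by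
    intro F hF G hG a b ha hb hab
    rw [hU] at *
    intro z
    have h1 := hF z
    have h2 := hG z
    show 0 < a * F z + b * G z
    rcases eq_or_lt_of_le ha with h3 | h3
    · rw [← h3] at hab ⊢
      have : b = 1 := by linarith
      rw [this]
      linarith
    · have : 0 ≤ b * G z := by positivity
      have : 0 < a * F z := by positivity
      linarith
  have hUo : IsOpen U := by
    have h1 : U = {F : C(X, ℝ) | MapsTo F univ (Ioi 0)} := by
      ext F
      rw [hU]
      exact ⟨fun h z _ => h z, fun h z => h (mem_univ z)⟩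
    rw [h1]
    exact ContinuousMap.isOpen_setOfPred_mapsTo isCompact_univ isOpen_Ioi
  have htc : Convex ℝ t := by
    intro F hF G hG a b _ _ _
    exact hadd _ (hsmul a F hF) _ (hsmul b G hG)
  have hdisj : Disjoint U t := by
    rw [Set.disjoint_left]
    intro F hF1 hF2
    obtain ⟨z, hz⟩ := h F hF2
    have := (hU F).1 hF1 z
    linarith
  obtain ⟨f, u, hf1, hf2⟩ := geometric_hahn_banach_open hUc hUo htc hdisj
  have hu0 : u ≤ 0 := by simpa using hf2 0 ht0
  have hft : ∀ F ∈ t, f F = 0 := by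
    intro F hF
    by_contra hne
    have h1 := hf2 _ (hsmul ((u - 1) / f F) F hF)
    rw [map_smul, smul_eq_mul, div_mul_cancel₀ _ hne] at h1
    linarith
  have hfU : ∀ F ∈ U, f F < 0 := fun F hF => (hf1 F hF).trans_le hu0
  have hone : (1 : C(X, ℝ)) ∈ U := by
    rw [hU]
    intro z
    exact one_pos
  have hf1' := hfU _ hone
  have hfpos : ∀ F : C(X, ℝ), 0 ≤ F → f F ≤ 0 := by
    intro F hF
    by_contra hcon
    push Not at hcon
    obtain ⟨ε, hε⟩ : ∃ ε : ℝ, ε = f F / (2 * (-(f 1))) := ⟨_, rfl⟩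
    have hε0 : 0 < ε := by
      rw [hε]
      exact div_pos hcon (by linarith)
    have h1 : F + ε • (1 : C(X, ℝ)) ∈ U := by
      rw [hU]
      intro z
      have h2 : 0 ≤ F z := hF z
      show 0 < F z + ε * 1
      linarith
    have h2 := hfU _ h1
    rw [map_add, map_smul, smul_eq_mul] at h2
    have h3 : ε * (2 * (-(f 1))) = f F := by
      rw [hε]
      exact div_mul_cancel₀ _ (by linarith)
    linarith
  obtain ⟨Λ, hΛ⟩ : ∃ Λ : CompactlySupportedContinuousMap X ℝ →ₚ[ℝ] ℝ,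
      ∀ g, Λ g = -(f g.toContinuousMap) := by
    refine ⟨PositiveLinearMap.mk₀ ⟨⟨fun g => -(f g.toContinuousMap), ?_⟩, ?_⟩ ?_, fun g => rfl⟩
    · intro g1 g2
      have : (g1 + g2).toContinuousMap = g1.toContinuousMap + g2.toContinuousMap := rfl
      rw [this, map_add]
      ring
    · intro c g
      have : (c • g).toContinuousMap = c • g.toContinuousMap := rfl
      simp only [this, map_smul, smul_eq_mul, RingHom.id_apply]
      ring
    · intro g hg
      have h1 : 0 ≤ g.toContinuousMap := fun z => hg z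
      have := hfpos _ h1
      show 0 ≤ -(f g.toContinuousMap)
      linarith
  obtain ⟨ν, hν⟩ : ∃ ν : Measure X, ν = RealRMK.rieszMeasure Λ := ⟨_, rfl⟩
  have : ν.Regular := by rw [hν]; infer_instance
  have : IsFiniteMeasure ν := inferInstance
  have hint : ∀ F : C(X, ℝ), ∫ z, F z ∂ν = -(f F) := by
    intro F
    have h1 := RealRMK.integral_rieszMeasure Λ (CompactlySupportedContinuousMap.continuousMapEquiv F)
    rw [hΛ] at h1
    rw [hν]
    exact h1
  have hmass : (ν univ).toReal = -(f 1) := by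
    have h1 := hint 1
    simpa [Measure.real] using h1
  have hmass0 : ν univ ≠ 0 := by
    intro h0
    rw [h0] at hmass
    simp at hmass
    linarith
  refine ⟨(ν univ)⁻¹ • ν, ⟨?_⟩, fun F hF => ?_⟩
  · rw [Measure.smul_apply, smul_eq_mul]
    exact ENNReal.inv_mul_cancel hmass0 (measure_ne_top ν _)
  · rw [integral_smul_measure, hint, hft F hF]
    simp

lemma grad_add {φ ψ : E n → ℝ} (hφ : ContDiff ℝ 2 φ) (hψ : ContDiff ℝ 2 ψ) (x : E n) :
    gradient (fun y => φ y + ψ y) x = gradient φ x + gradient ψ x := by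
  have h1 := (hφ.differentiable (by norm_num)) x
  have h2 := (hψ.differentiable (by norm_num)) x
  unfold gradient
  have h3 : fderiv ℝ (fun y => φ y + ψ y) x = fderiv ℝ φ x + fderiv ℝ ψ x := fderiv_fun_add h1 h2
  rw [h3, map_add]

lemma grad_smul {φ : E n → ℝ} (hφ : ContDiff ℝ 2 φ) (c : ℝ) (x : E n) :
    gradient (fun y => c * φ y) x = c • gradient φ x := by
  have h1 := (hφ.differentiable (by norm_num)) x
  unfold gradient
  have h3 : fderiv ℝ (fun y => c * φ y) x = c • fderiv ℝ φ x := fderiv_const_mul h1 c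
  rw [h3]
  simp

lemma le_of_agree {H : E n → E n → ℝ} (hH : IsHam H) (h2 : A2 H) {R : ℝ}
    (hR : ∀ x p : E n, H x p ≤ 0 → ‖p‖ ≤ R) {v w : E n → ℝ} (hv : IsSol H v) (hw : IsSol H w)
    (hK : ∀ x ∈ projMather H, v x = w x) (x : E n) : v x ≤ w x := by
  obtain ⟨K, hKdef⟩ : ∃ K : Set (E n × E n), K = {z | z.1 ∈ cube n} ∩
      ({z | ∀ y, v y - w y ≤ v z.1 - w z.1} ∩ ({z | H z.1 z.2 = 0} ∩ {z | DpH H z.1 z.2 z.2 = 0})) :=
    ⟨_, rfl⟩
  have hmem : ∀ z, z ∈ K ↔ z.1 ∈ cube n ∧ (∀ y, v y - w y ≤ v z.1 - w z.1) ∧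
      H z.1 z.2 = 0 ∧ DpH H z.1 z.2 z.2 = 0 := by
    intro z
    rw [hKdef]
    exact Iff.rfl
  have hDc : Continuous (fun z : E n × E n => DpH H z.1 z.2 z.2) :=
    (DpH_cont hH).comp (continuous_id.prodMk continuous_snd)
  have hKc : IsClosed K := by
    rw [hKdef]
    refine IsClosed.inter (cube_compact.isClosed.preimage continuous_fst) (IsClosed.inter ?_
      (IsClosed.inter (isClosed_eq (ham_cont hH) continuous_const)
        (isClosed_eq hDc continuous_const)))
    have e : {z : E n × E n | ∀ y, v y - w y ≤ v z.1 - w z.1}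
        = ⋂ y, {z : E n × E n | v y - w y ≤ v z.1 - w z.1} := by
      ext z
      simp only [mem_iInter]
      exact Iff.rfl
    rw [e]
    refine isClosed_iInter fun y => isClosed_le continuous_const ?_
    exact (hv.1.comp continuous_fst).sub (hw.1.comp continuous_fst)
  have hKcomp : IsCompact K := by
    refine (cube_compact.prod (isCompact_closedBall (0 : E n) R)).of_isClosed_subset hKc ?_
    intro z hz
    rw [hmem] at hz
    exact ⟨hz.1, by simpa using hR _ _ hz.2.2.1.le⟩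
  have : CompactSpace K := isCompact_iff_compactSpace.1 hKcomp
  have hFc : ∀ φ : E n → ℝ, ContDiff ℝ 2 φ →
      Continuous (fun z : E n × E n => DpH H z.1 z.2 (gradient φ z.1)) := by
    intro φ hφ
    exact (DpH_cont hH).comp (continuous_id.prodMk
      ((grad_cont (hφ.of_le (by norm_num))).comp continuous_fst))
  obtain ⟨t, ht⟩ : ∃ t : Set C(K, ℝ), ∀ F, F ∈ t ↔ ∃ φ : E n → ℝ, ContDiff ℝ 2 φ ∧ Per φ ∧
      ∀ z : K, F z = DpH H z.1.1 z.1.2 (gradient φ z.1.1) :=
    ⟨{F | ∃ φ : E n → ℝ, ContDiff ℝ 2 φ ∧ Per φ ∧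
      ∀ z : K, F z = DpH H z.1.1 z.1.2 (gradient φ z.1.1)}, fun _ => Iff.rfl⟩
  obtain ⟨ν, hν, hνt⟩ := exists_measure t
    (by
      rw [ht]
      refine ⟨fun _ => 0, contDiff_const, fun _ _ => rfl, fun z => ?_⟩
      have h4 : gradient (fun _ : E n => (0 : ℝ)) z.1.1 = 0 := by
        refine HasGradientAt.gradient ?_
        rw [hasGradientAt_iff_hasFDerivAt, map_zero]
        exact hasFDerivAt_const 0 _
      rw [h4]
      unfold DpH
      rw [map_zero]
      rfl)
    (by
      intro F hF G hG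
      rw [ht] at *
      obtain ⟨φ, hφ, hφp, hφ2⟩ := hF
      obtain ⟨ψ, hψ, hψp, hψ2⟩ := hG
      refine ⟨fun y => φ y + ψ y, hφ.add hψ, fun k y => by
        show φ (y + iv k) + ψ (y + iv k) = φ y + ψ y
        rw [hφp, hψp], fun z => ?_⟩
      rw [grad_add hφ hψ]
      show F z + G z = _
      rw [hφ2, hψ2]
      unfold DpH
      rw [map_add])
    (by
      intro c F hF
      rw [ht] at *
      obtain ⟨φ, hφ, hφp, hφ2⟩ := hF
      refine ⟨fun y => c * φ y, contDiff_const.mul hφ, fun k y => by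
        show c * φ (y + iv k) = c * φ y
        rw [hφp], fun z => ?_⟩
      rw [grad_smul hφ]
      show c * F z = _
      rw [hφ2]
      unfold DpH
      rw [map_smul, smul_eq_mul])
    (by
      intro F hF
      rw [ht] at hF
      obtain ⟨φ, hφ, hφp, hφ2⟩ := hF
      obtain ⟨y, hy, p, c1, c2, c3, c4⟩ := contact hH h2 hR hv hw (hφ.of_le (by norm_num)) hφp
      refine ⟨⟨(y, p), (hmem _).2 ⟨hy, c1, c2, c3⟩⟩, ?_⟩
      rw [hφ2]
      exact c4)
  obtain ⟨μ, hμ⟩ : ∃ μ : Measure (E n × E n), μ = ν.map Subtype.val := ⟨_, rfl⟩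
  have hvm : AEMeasurable (Subtype.val : K → E n × E n) ν := measurable_subtype_coe.aemeasurable
  have hμp : IsProbabilityMeasure μ := by
    rw [hμ]
    exact Measure.isProbabilityMeasure_map hvm
  have hKae : K ∈ ae μ := by
    rw [hμ, mem_ae_iff, Measure.map_apply measurable_subtype_coe hKc.measurableSet.compl]
    have : (Subtype.val : K → E n × E n) ⁻¹' Kᶜ = ∅ := by
      ext z
      simp
    rw [this, measure_empty]
  have hMather : IsMather H μ := by
    refine ⟨hμp, ?_, ⟨?_, ?_⟩, ?_⟩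
    · filter_upwards [hKae] with z hz
      exact ((hmem z).1 hz).2.2.1
    · refine (integrable_zero (E n × E n) ℝ μ).congr ?_
      filter_upwards [hKae] with z hz
      exact ((hmem z).1 hz).2.2.2.symm
    · rw [integral_eq_zero_of_ae]
      filter_upwards [hKae] with z hz
      exact ((hmem z).1 hz).2.2.2
    · intro φ hφ hφp
      obtain ⟨F, hF⟩ : ∃ F : C(K, ℝ), ∀ z : K, F z = DpH H z.1.1 z.1.2 (gradient φ z.1.1) :=
        ⟨⟨fun z => DpH H z.1.1 z.1.2 (gradient φ z.1.1),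
          (hFc φ hφ).comp continuous_subtype_val⟩, fun _ => rfl⟩
      have hFt : F ∈ t := (ht F).2 ⟨φ, hφ, hφp, hF⟩
      have hae : AEStronglyMeasurable
          (fun z : E n × E n => DpH H z.1 z.2 (gradient φ z.1)) (ν.map Subtype.val) :=
        (hFc φ hφ).aestronglyMeasurable
      have hcomp : ((fun z : E n × E n => DpH H z.1 z.2 (gradient φ z.1)) ∘ Subtype.val)
          = fun z : K => F z := by
        funext z
        exact (hF z).symm
      constructor
      · rw [hμ, integrable_map_measure hae hvm, hcomp]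
        exact Integrable.of_bound F.continuous.aestronglyMeasurable ‖F‖
          (Eventually.of_forall fun z => F.norm_coe_le_norm z)
      · rw [hμ, integral_map hvm hae]
        have e := hνt F hFt
        rw [← e]
        exact integral_congr_ae (Eventually.of_forall fun z => (hF z).symm)
  have hsup : μ.support.Nonempty := Measure.nonempty_support (IsProbabilityMeasure.ne_zero μ)
  obtain ⟨z, hz⟩ := hsup
  have hzK : z ∈ K := Measure.support_subset_of_isClosed hKc hKae hz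
  have hzM : z.1 ∈ projMather H := by
    refine subset_closure ⟨μ, hMather, 0, z.2, ?_⟩
    have e : z.1 + iv (0 : Fin n → ℤ) = z.1 := by
      ext i
      simp [iv]
    rw [e]
    exact hz
  have h3 := hK _ hzM
  have h4 := ((hmem z).1 hzK).2.1 x
  linarith

theorem result {n : ℕ} (H : E n → E n → ℝ) (hH : IsHam H) (h1 : A1 H) (h2 : A2 H) :
    IsUniquenessSet H (projMather H) := by
  intro v w hv hw hvw
  rcases dichotomy hH h1 h2 with ⟨R, hR⟩ | htriv
  · funext x
    exact le_antisymm (le_of_agree hH h2 hR hv hw hvw x)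
      (le_of_agree hH h2 hR hw hv (fun y hy => (hvw y hy).symm) x)
  · funext x
    exact hvw x (zero_mem hH h2 (htriv v hv x))

end Pool.Agent.Results.MP_44d257_an.MatherUniqueness
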